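import Pool.Agent.helper22.OB.SpecG

/-!
Row FXC of project ob (MP_baa4d7_al): orbits of powers.
-/

set_option autoImplicit false

namespace Pool.Agent.OB

open Pool.Agent.helper58.DC Pool.Agent.DI Pool.Agent.GR

/-- the units which are congruent to `1` modulo the divisor `d` of `n` -/
def FXC_sub (n d : ℕ) (hd : d ∣ n) : Subgroup (ZMod n)ˣ where
  carrier := {u | (u : ZMod n).val ≡ 1 [MOD d]}
  one_mem' := by
    show ((1 : (ZMod n)ˣ) : ZMod n).val ≡ 1 [MOD d]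
    rw [Units.val_one, ZMod.val_one_eq_one_mod]
    exact (Nat.mod_modEq 1 n).of_dvd hd
  mul_mem' := by
    intro u v hu hv
    have hu' : (u : ZMod n).val ≡ 1 [MOD d] := hu
    have hv' : (v : ZMod n).val ≡ 1 [MOD d] := hv
    show ((u * v : (ZMod n)ˣ) : ZMod n).val ≡ 1 [MOD d]
    rw [Units.val_mul, ZMod.val_mul]
    have h1 := (Nat.mod_modEq ((u : ZMod n).val * (v : ZMod n).val) n).of_dvd hd
    have h2 := Nat.ModEq.mul hu' hv'
    rw [one_mul] at h2
    exact h1.trans h2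
  inv_mem' := by
    intro u hu
    have hu' : (u : ZMod n).val ≡ 1 [MOD d] := hu
    show ((u⁻¹ : (ZMod n)ˣ) : ZMod n).val ≡ 1 [MOD d]
    have h0 : ((u⁻¹ * u : (ZMod n)ˣ) : ZMod n).val ≡ 1 [MOD d] := by
      rw [inv_mul_cancel, Units.val_one, ZMod.val_one_eq_one_mod]
      exact (Nat.mod_modEq 1 n).of_dvd hd
    rw [Units.val_mul, ZMod.val_mul] at h0
    have h1 := (Nat.mod_modEq (((u⁻¹ : (ZMod n)ˣ) : ZMod n).val * (u : ZMod n).val) n).of_dvd hd
    have h2 : ((u⁻¹ : (ZMod n)ˣ) : ZMod n).val * (u : ZMod n).val ≡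
        ((u⁻¹ : (ZMod n)ˣ) : ZMod n).val * 1 [MOD d] := Nat.ModEq.mul_left _ hu'
    rw [mul_one] at h2
    exact h2.symm.trans (h1.symm.trans h0)

theorem FXC_mem (n d : ℕ) (hd : d ∣ n) (u : (ZMod n)ˣ) :
    u ∈ FXC_sub n d hd ↔ (u : ZMod n).val ≡ 1 [MOD d] := Iff.rfl

section

variable {G : Type} [Group G]

/-- the power of `s` with the exponent `u` -/
noncomputable def FXC_pu (u : (ZMod (Nat.card G))ˣ) (s : G) : G := s ^ ((u : ZMod (Nat.card G)).val)

theorem FXC_pu_one (s : G) : FXC_pu 1 s = s := by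
  unfold FXC_pu
  rw [Units.val_one, ZMod.val_one_eq_one_mod, pow_mod_natCard, pow_one]

theorem FXC_pu_mul (u v : (ZMod (Nat.card G))ˣ) (s : G) :
    FXC_pu (u * v) s = FXC_pu u (FXC_pu v s) := by
  unfold FXC_pu
  rw [Units.val_mul, ZMod.val_mul, pow_mod_natCard, mul_comm, pow_mul]

theorem FXC_pu_conj (u : (ZMod (Nat.card G))ˣ) (x s : G) :
    FXC_pu u (x * s * x⁻¹) = x * FXC_pu u s * x⁻¹ := by
  unfold FXC_pu
  exact conj_pow

/-- the set of the `s` with `s ^ q` conjugate to `g` -/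
def FXC_X (g : G) (q : ℕ) : Set G := {s | s ^ q ∈ conjugatesOf g}

theorem FXC_X_iff (g : G) (q : ℕ) (s : G) : s ∈ FXC_X g q ↔ ∃ c, c * g * c⁻¹ = s ^ q := by
  show IsConj g (s ^ q) ↔ _
  exact isConj_iff

theorem FXC_X_act (g : G) (q : ℕ) (u : (ZMod (Nat.card G))ˣ) (hu : FXC_pu u g = g) (x s : G)
    (hs : s ∈ FXC_X g q) : x * FXC_pu u s * x⁻¹ ∈ FXC_X g q := by
  rw [FXC_X_iff] at hs ⊢
  obtain ⟨c, hc⟩ := hs
  refine ⟨x * c, ?_⟩
  have h1 : (FXC_pu u s) ^ q = FXC_pu u (s ^ q) := by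
    unfold FXC_pu
    rw [← pow_mul, ← pow_mul, mul_comm]
  rw [conj_pow, h1, ← hc, FXC_pu_conj, hu]
  group

/-- the action of `G × P` -/
noncomputable def FXC_act (g : G) (q : ℕ) (P : Subgroup (ZMod (Nat.card G))ˣ)
    (hP : ∀ u ∈ P, FXC_pu u g = g) : (G × P) →* Equiv.Perm (FXC_X g q) :=
  @MulAction.toPermHom (G × P) (FXC_X g q) _
    { smul := fun n s => ⟨n.1 * FXC_pu (n.2 : (ZMod (Nat.card G))ˣ) s.1 * n.1⁻¹,
        FXC_X_act g q n.2 (hP n.2 n.2.2) n.1 s.1 s.2⟩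
      one_smul := by
        intro s
        apply Subtype.ext
        show (1 : G) * FXC_pu (((1 : P)) : (ZMod (Nat.card G))ˣ) s.1 * (1 : G)⁻¹ = s.1
        rw [OneMemClass.coe_one, FXC_pu_one]
        simp
      mul_smul := by
        intro m n s
        apply Subtype.ext
        show (m.1 * n.1) * FXC_pu ((m.2 * n.2 : P) : (ZMod (Nat.card G))ˣ) s.1 * (m.1 * n.1)⁻¹ =
          m.1 * FXC_pu (m.2 : (ZMod (Nat.card G))ˣ)
            (n.1 * FXC_pu (n.2 : (ZMod (Nat.card G))ˣ) s.1 * n.1⁻¹) * m.1⁻¹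
        rw [MulMemClass.coe_mul, FXC_pu_mul, FXC_pu_conj]
        group }

theorem FXC_act_apply (g : G) (q : ℕ) (P : Subgroup (ZMod (Nat.card G))ˣ)
    (hP : ∀ u ∈ P, FXC_pu u g = g) (n : G × P) (s : FXC_X g q) :
    ((FXC_act g q P hP n s : FXC_X g q) : G) =
      n.1 * FXC_pu (n.2 : (ZMod (Nat.card G))ˣ) s.1 * n.1⁻¹ := rfl

/-- the stabiliser of `s` -/
noncomputable def FXC_st (P : Subgroup (ZMod (Nat.card G))ˣ) (s : G) : Subgroup (G × P) where
  carrier := {n | n.1 * FXC_pu (n.2 : (ZMod (Nat.card G))ˣ) s * n.1⁻¹ = s}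
  one_mem' := by
    show (1 : G) * FXC_pu (((1 : P)) : (ZMod (Nat.card G))ˣ) s * (1 : G)⁻¹ = s
    rw [OneMemClass.coe_one, FXC_pu_one]
    simp
  mul_mem' := by
    intro m n hm hn
    have hm' : m.1 * FXC_pu (m.2 : (ZMod (Nat.card G))ˣ) s * m.1⁻¹ = s := hm
    have hn' : n.1 * FXC_pu (n.2 : (ZMod (Nat.card G))ˣ) s * n.1⁻¹ = s := hn
    show (m.1 * n.1) * FXC_pu ((m.2 * n.2 : P) : (ZMod (Nat.card G))ˣ) s * (m.1 * n.1)⁻¹ = s
    rw [MulMemClass.coe_mul, FXC_pu_mul]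
    have h1 : (m.1 * n.1) * FXC_pu (m.2 : (ZMod (Nat.card G))ˣ)
        (FXC_pu (n.2 : (ZMod (Nat.card G))ˣ) s) * (m.1 * n.1)⁻¹ =
        m.1 * FXC_pu (m.2 : (ZMod (Nat.card G))ˣ)
          (n.1 * FXC_pu (n.2 : (ZMod (Nat.card G))ˣ) s * n.1⁻¹) * m.1⁻¹ := by
      rw [FXC_pu_conj]
      group
    rw [h1, hn', hm']
  inv_mem' := by
    intro m hm
    have hm' : m.1 * FXC_pu (m.2 : (ZMod (Nat.card G))ˣ) s * m.1⁻¹ = s := hm
    show m.1⁻¹ * FXC_pu ((m.2⁻¹ : P) : (ZMod (Nat.card G))ˣ) s * (m.1⁻¹)⁻¹ = s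
    have h2 : FXC_pu (m.2 : (ZMod (Nat.card G))ˣ) s = m.1⁻¹ * s * m.1 := by
      rw [← hm']
      have h3 : m.1 * FXC_pu (m.2 : (ZMod (Nat.card G))ˣ) s * m.1⁻¹ = s := hm'
      rw [h3]
      have h4 : FXC_pu (m.2 : (ZMod (Nat.card G))ˣ) s = m.1⁻¹ * s * m.1 := by
        nth_rewrite 2 [← h3]
        group
      exact h4
    have h5 : FXC_pu ((m.2⁻¹ : P) : (ZMod (Nat.card G))ˣ)
        (FXC_pu (m.2 : (ZMod (Nat.card G))ˣ) s) = s := by
      rw [← FXC_pu_mul, ← MulMemClass.coe_mul, inv_mul_cancel, OneMemClass.coe_one, FXC_pu_one]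
    have h6 : m.1⁻¹ * FXC_pu ((m.2⁻¹ : P) : (ZMod (Nat.card G))ˣ) s * m.1 =
        FXC_pu ((m.2⁻¹ : P) : (ZMod (Nat.card G))ˣ) (m.1⁻¹ * s * (m.1⁻¹)⁻¹) := by
      rw [FXC_pu_conj, inv_inv]
    rw [inv_inv, h6, inv_inv, ← h2, h5]

theorem FXC_mem_st (P : Subgroup (ZMod (Nat.card G))ˣ) (s : G) (n : G × P) :
    n ∈ FXC_st P s ↔ n.1 * FXC_pu (n.2 : (ZMod (Nat.card G))ˣ) s * n.1⁻¹ = s := Iff.rfl

/-- the projection of the stabiliser to `P` -/
noncomputable def FXC_pr (P : Subgroup (ZMod (Nat.card G))ˣ) (s : G) : FXC_st P s →* P :=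
  (MonoidHom.snd G P).comp (FXC_st P s).subtype

theorem FXC_card_ker (P : Subgroup (ZMod (Nat.card G))ˣ) (s : G) :
    Nat.card (FXC_pr P s).ker = Nat.card (Subgroup.centralizer ({s} : Set G)) := by
  apply Nat.card_congr
  refine
    { toFun := fun k => ⟨k.1.1.1, ?_⟩
      invFun := fun y => ⟨⟨(y.1, 1), ?_⟩, ?_⟩
      left_inv := ?_
      right_inv := ?_ }
  · rw [Subgroup.mem_centralizer_singleton_iff]
    have h1 : k.1.1.2 = 1 := k.2
    have h2 := (FXC_mem_st P s k.1.1).1 k.1.2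
    rw [h1, OneMemClass.coe_one, FXC_pu_one] at h2
    have h3 := congrArg (fun t => t * k.1.1.1) h2
    simpa [mul_assoc] using h3
  · rw [FXC_mem_st]
    show y.1 * FXC_pu ((1 : P) : (ZMod (Nat.card G))ˣ) s * y.1⁻¹ = s
    rw [OneMemClass.coe_one, FXC_pu_one]
    have h1 := Subgroup.mem_centralizer_singleton_iff.1 y.2
    rw [h1]
    group
  · rw [MonoidHom.mem_ker]
    rfl
  · intro k
    apply Subtype.ext
    apply Subtype.ext
    have h1 : k.1.1.2 = 1 := k.2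
    exact Prod.ext rfl h1.symm
  · intro y
    rfl

theorem FXC_card_st [Finite G] (P : Subgroup (ZMod (Nat.card G))ˣ) (s : G) :
    Nat.card (FXC_st P s) = Nat.card (FXC_pr P s).range *
      Nat.card (Subgroup.centralizer ({s} : Set G)) := by
  rw [Subgroup.card_eq_card_quotient_mul_card_subgroup (FXC_pr P s).ker, FXC_card_ker,
    Nat.card_congr (QuotientGroup.quotientKerEquivRange (FXC_pr P s)).toEquiv]

/-- `p` divides the order of `g` -/
theorem FXC_dvd (p a : ℕ) (hp : p.Prime) (g : G)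
    (H : ∀ b : G, b ^ (p ^ a) = g → ∃ m : ℕ, m ≡ 1 [MOD orderOf g] ∧ ¬ IsConj b (b ^ m)) :
    p ∣ orderOf g := by
  by_contra hno
  have hc : (p ^ a).Coprime (orderOf g) :=
    Nat.Coprime.pow_left a ((Nat.Prime.coprime_iff_not_dvd hp).2 hno)
  obtain ⟨k, hk⟩ := exists_pow_eq_self_of_coprime (x := g) hc
  obtain ⟨m, hm, hconj⟩ := H (g ^ k) (by rw [← pow_mul, mul_comm, pow_mul, hk])
  apply hconj
  have h1 : g ^ m = g := by
    have := (pow_eq_pow_iff_modEq (x := g) (n := m) (m := 1)).2 hm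
    simpa using this
  have h2 : (g ^ k) ^ m = g ^ k := by
    rw [← pow_mul, mul_comm, pow_mul, h1]
  rw [h2]

/-- an exponent with the same effect on `b` -/
theorem FXC_exp (p a A q m N o : ℕ) (hp : p.Prime) (hq : ¬ p ∣ q) (hN : N ∣ p ^ A * q)
    (hNo : N ∣ p ^ a * o) (hm : m ≡ 1 [MOD o]) :
    ∃ m₁ : ℕ, m₁ ≡ m [MOD p ^ A] ∧ m₁ ≡ 1 [MOD q] ∧ m₁ ≡ m [MOD N] := by
  have hcop : (p ^ A).Coprime q :=
    Nat.Coprime.pow_left A ((Nat.Prime.coprime_iff_not_dvd hp).2 hq)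
  obtain ⟨m₁, h1, h2⟩ := Nat.chineseRemainder hcop m 1
  refine ⟨m₁, h1, h2, ?_⟩
  have hNe : N = N.gcd (p ^ A) * N.gcd q := by
    rw [← Nat.Coprime.gcd_mul N hcop]
    exact (Nat.gcd_eq_left hN).symm
  have hg : (N.gcd (p ^ A)).Coprime (N.gcd q) :=
    Nat.Coprime.coprime_dvd_left (Nat.gcd_dvd_right _ _)
      (Nat.Coprime.coprime_dvd_right (Nat.gcd_dvd_right _ _) hcop)
  rw [hNe]
  refine (Nat.modEq_and_modEq_iff_modEq_mul hg).1 ⟨h1.of_dvd (Nat.gcd_dvd_right _ _), ?_⟩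
  have h3 : N.gcd q ∣ o := by
    have h4 : N.gcd q ∣ p ^ a * o := (Nat.gcd_dvd_left _ _).trans hNo
    refine Nat.Coprime.dvd_of_dvd_mul_left ?_ h4
    have h5 : (p ^ a).Coprime q :=
      Nat.Coprime.pow_left a ((Nat.Prime.coprime_iff_not_dvd hp).2 hq)
    exact (Nat.Coprime.coprime_dvd_right (Nat.gcd_dvd_right N q) h5).symm
  exact (h2.of_dvd (Nat.gcd_dvd_right _ _)).trans (hm.of_dvd h3).symm

/-- `P` is a `p`-group -/
theorem FXC_pgroup (p A q o n : ℕ) [NeZero n] (hn : n = p ^ A * q) (hp : p.Prime)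
    (hq : ¬ p ∣ q) (hpo : p ∣ o) (h1 : q ∣ n) (h2 : o ∣ n) :
    IsPGroup p (FXC_sub n q h1 ⊓ FXC_sub n o h2 : Subgroup (ZMod n)ˣ) := by
  intro u
  refine ⟨A, ?_⟩
  apply Subtype.ext
  apply Units.ext
  obtain ⟨hu1, hu2⟩ := u.2
  have hu1' : ((u : (ZMod n)ˣ) : ZMod n).val ≡ 1 [MOD q] := hu1
  have hu2' : ((u : (ZMod n)ˣ) : ZMod n).val ≡ 1 [MOD o] := hu2
  set k := ((u : (ZMod n)ˣ) : ZMod n).val with hk
  have hcast : ((u : (ZMod n)ˣ) : ZMod n) = (k : ZMod n) := by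
    rw [hk, ZMod.natCast_zmod_val]
  show ((u ^ (p ^ A) : (FXC_sub n q h1 ⊓ FXC_sub n o h2 : Subgroup (ZMod n)ˣ)) : (ZMod n)ˣ).val = 1
  rw [SubmonoidClass.coe_pow, Units.val_pow_eq_pow_val, hcast]
  have hkp : k ≡ 1 [MOD p] := hu2'.of_dvd hpo
  have hkA : k ^ (p ^ A) ≡ 1 [MOD p ^ A] := by
    have hd : (p : ℤ) ∣ (k : ℤ) - 1 := by
      have := (Nat.modEq_iff_dvd.1 hkp.symm)
      simpa using this
    have hd2 := dvd_sub_pow_of_dvd_sub hd A
    rw [one_pow] at hd2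
    have hd3 : ((p ^ A : ℕ) : ℤ) ∣ ((k ^ (p ^ A) : ℕ) : ℤ) - ((1 : ℕ) : ℤ) := by
      push_cast
      exact (pow_dvd_pow _ (Nat.le_succ A)).trans hd2
    exact (Nat.modEq_iff_dvd.2 hd3).symm
  have hkq : k ^ (p ^ A) ≡ 1 [MOD q] := by
    have := hu1'.pow (p ^ A)
    rwa [one_pow] at this
  have hcop : (p ^ A).Coprime q :=
    Nat.Coprime.pow_left A ((Nat.Prime.coprime_iff_not_dvd hp).2 hq)
  have hkn : k ^ (p ^ A) ≡ 1 [MOD n] := by
    rw [hn]
    exact (Nat.modEq_and_modEq_iff_modEq_mul hcop).1 ⟨hkA, hkq⟩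
  have := (ZMod.natCast_eq_natCast_iff _ _ _).2 hkn
  push_cast at this
  exact this

end

theorem FXC (hODV : ODV_stmt) : FXC_stmt := by
  intro p a M hS G _ _ h g hcl hpow hdiv H
  classical
  have hp : p.Prime := hS.pr
  have : Fact p.Prime := ⟨hp⟩
  have hn0 : Nat.card G ≠ 0 := Nat.card_pos.ne'
  have : NeZero (Nat.card G) := ⟨hn0⟩
  have : Fintype (ZMod (Nat.card G)) := ZMod.fintype _
  have : Finite (ZMod (Nat.card G))ˣ := inferInstance
  obtain ⟨A, q, hq, hn⟩ := Nat.exists_eq_pow_mul_and_not_dvd hn0 p hp.ne_one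
  have hqn : q ∣ Nat.card G := ⟨p ^ A, by rw [hn, mul_comm]⟩
  have hon : orderOf g ∣ Nat.card G := orderOf_dvd_natCard g
  have hpo : p ∣ orderOf g := FXC_dvd p a hp g H
  -- the sum over `X`
  have hsum : ∑ᶠ s, ind g (s ^ (p ^ a)) * h s = ∑ᶠ x : FXC_X g (p ^ a), h x := by
    rw [finsum_set_coe_eq_finsum_mem (FXC_X g (p ^ a)), finsum_mem_def]
    apply finsum_congr
    intro s
    unfold ind
    by_cases hs : s ∈ FXC_X g (p ^ a)
    · have hs' : s ^ p ^ a ∈ conjugatesOf g := hs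
      rw [Set.indicator_of_mem hs, if_pos hs', one_mul]
    · have hs' : ¬ s ^ p ^ a ∈ conjugatesOf g := hs
      rw [Set.indicator_of_notMem hs, if_neg hs', zero_mul]
  rw [hsum]
  rcases isEmpty_or_nonempty (FXC_X g (p ^ a)) with hX | ⟨⟨s₀, hs₀⟩⟩
  · refine ⟨0, InM.zero hS, ?_⟩
    rw [finsum_of_isEmpty]
    simp
  set P : Subgroup (ZMod (Nat.card G))ˣ :=
    FXC_sub (Nat.card G) q hqn ⊓ FXC_sub (Nat.card G) (orderOf g) hon with hPdef
  have hPg : ∀ u ∈ P, FXC_pu u g = g := by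
    intro u hu
    have hu2 : (u : ZMod (Nat.card G)).val ≡ 1 [MOD orderOf g] := hu.2
    have := (pow_eq_pow_iff_modEq (x := g) (n := (u : ZMod (Nat.card G)).val) (m := 1)).2 hu2
    rw [pow_one] at this
    exact this
  have hPp : IsPGroup p P := FXC_pgroup p A q (orderOf g) (Nat.card G) hn hp hq hpo hqn hon
  obtain ⟨k, hk⟩ := (IsPGroup.iff_card (p := p) (G := P)).1 hPp
  -- invariance of `h`
  have hPh : ∀ u ∈ P, ∀ x, h (FXC_pu u x) = h x := by
    intro u hu x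
    refine hpow _ (ZMod.val_coe_unit_coprime u) ?_ x
    intro v hv
    have hu1 : (u : ZMod (Nat.card G)).val ≡ 1 [MOD q] := hu.1
    have hvq : orderOf v ∣ q := by
      have h1 : orderOf v ∣ p ^ A * q := by rw [← hn]; exact orderOf_dvd_natCard v
      refine Nat.Coprime.dvd_of_dvd_mul_left ?_ h1
      exact (Nat.Coprime.pow_left A ((Nat.Prime.coprime_iff_not_dvd hp).2 hv)).symm
    have := (pow_eq_pow_iff_modEq (x := v) (n := (u : ZMod (Nat.card G)).val) (m := 1)).2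
      (hu1.of_dvd hvq)
    rwa [pow_one] at this
  -- the range of the projection is not everything
  have hrange : ∀ s ∈ FXC_X g (p ^ a), (FXC_pr P s).range ≠ ⊤ := by
    intro s hs htop
    obtain ⟨c, hc⟩ := (FXC_X_iff g (p ^ a) s).1 hs
    set b : G := c⁻¹ * s * c with hb
    have hbs : s = c * b * c⁻¹ := by rw [hb]; group
    have hbg : b ^ (p ^ a) = g := by
      have h1 : (c * b * c⁻¹) ^ (p ^ a) = c * b ^ (p ^ a) * c⁻¹ := conj_pow
      rw [← hbs, ← hc] at h1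
      have h2 := mul_right_cancel h1
      exact (mul_left_cancel h2).symm
    obtain ⟨m, hm, hconj⟩ := H b hbg
    have hbn : orderOf b ∣ p ^ A * q := by rw [← hn]; exact orderOf_dvd_natCard b
    have hbo : orderOf b ∣ p ^ a * orderOf g := by
      apply orderOf_dvd_of_pow_eq_one
      rw [pow_mul, hbg, pow_orderOf_eq_one]
    obtain ⟨m₁, hm1, hm2, hm3⟩ := FXC_exp p a A q m (orderOf b) (orderOf g) hp hq hbn hbo hm
    have hgb : orderOf g ∣ orderOf b := by rw [← hbg]; exact orderOf_pow_dvd _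
    have hm1o : m₁ ≡ 1 [MOD orderOf g] := (hm3.of_dvd hgb).trans hm
    have hcop : m₁.Coprime (Nat.card G) := by
      rw [hn]
      apply Nat.Coprime.mul_right
      · apply Nat.Coprime.pow_right
        have h1 : m₁ ≡ 1 [MOD p] := hm1o.of_dvd hpo
        have h2 : Nat.gcd m₁ p = Nat.gcd 1 p := h1.gcd_eq
        show Nat.gcd m₁ p = 1
        rw [h2, Nat.gcd_one_left]
      · have h2 : Nat.gcd m₁ q = Nat.gcd 1 q := hm2.gcd_eq
        show Nat.gcd m₁ q = 1
        rw [h2, Nat.gcd_one_left]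
    set u : (ZMod (Nat.card G))ˣ := ZMod.unitOfCoprime m₁ hcop with hu
    have huv : (u : ZMod (Nat.card G)).val = m₁ % Nat.card G := by
      rw [hu, ZMod.coe_unitOfCoprime, ZMod.val_natCast]
    have huP : u ∈ P := by
      constructor
      · show (u : ZMod (Nat.card G)).val ≡ 1 [MOD q]
        rw [huv]
        exact ((Nat.mod_modEq _ _).of_dvd hqn).trans hm2
      · show (u : ZMod (Nat.card G)).val ≡ 1 [MOD orderOf g]
        rw [huv]
        exact ((Nat.mod_modEq _ _).of_dvd hon).trans hm1o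
    have hmem : (⟨u, huP⟩ : P) ∈ (FXC_pr P s).range := by rw [htop]; exact Subgroup.mem_top _
    obtain ⟨y, hy⟩ := hmem
    have hy2 : (y.1.2 : P) = ⟨u, huP⟩ := hy
    have hy3 := (FXC_mem_st P s y.1).1 y.2
    rw [hy2] at hy3
    have hpu : ∀ t : G, FXC_pu u t = t ^ m₁ := by
      intro t
      unfold FXC_pu
      rw [huv, pow_mod_natCard]
    have hy4 : y.1.1 * s ^ m₁ * (y.1.1)⁻¹ = s := by
      rw [← hpu]
      exact hy3
    apply hconj
    have hbm : b ^ m = b ^ m₁ := ((pow_eq_pow_iff_modEq (x := b)).2 hm3).symm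
    rw [hbm]
    apply IsConj.symm
    rw [isConj_iff]
    refine ⟨c⁻¹ * y.1.1 * c, ?_⟩
    have h7 : s ^ m₁ = c * b ^ m₁ * c⁻¹ := by
      rw [hbs]
      exact conj_pow
    have h8 : y.1.1 * (c * b ^ m₁ * c⁻¹) * (y.1.1)⁻¹ = s := by rw [← h7]; exact hy4
    calc c⁻¹ * y.1.1 * c * b ^ m₁ * (c⁻¹ * y.1.1 * c)⁻¹
        = c⁻¹ * (y.1.1 * (c * b ^ m₁ * c⁻¹) * (y.1.1)⁻¹) * c := by group
      _ = b := by rw [h8, hb]
  -- sizes
  have hkpos : 1 ≤ k := by
    rcases Nat.eq_zero_or_pos k with h0 | h0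
    · exfalso
      rw [h0, pow_zero] at hk
      apply hrange s₀ hs₀
      have hsub : ∀ x : P, x = 1 := by
        have := Nat.card_eq_one_iff_unique.1 hk
        have := this.1
        intro x
        exact Subsingleton.elim _ _
      rw [eq_top_iff]
      intro x _
      rw [hsub x]
      exact Subgroup.one_mem _
    · exact h0
  have hstab : ∀ s ∈ FXC_X g (p ^ a), ∃ j : ℕ, j + 1 ≤ k ∧
      Nat.card (FXC_st P s) = p ^ j * Nat.card (Subgroup.centralizer ({s} : Set G)) := by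
    intro s hs
    have hRp : IsPGroup p (FXC_pr P s).range := hPp.to_subgroup _
    obtain ⟨j, hj⟩ := (IsPGroup.iff_card (p := p) (G := (FXC_pr P s).range)).1 hRp
    refine ⟨j, ?_, ?_⟩
    · have hd : p ^ j ∣ p ^ k := by
        rw [← hj, ← hk]
        exact Subgroup.card_subgroup_dvd_card _
      have hle : j ≤ k := (Nat.pow_dvd_pow_iff_le_right hp.one_lt).1 hd
      rcases Nat.lt_or_ge j k with h1 | h1
      · exact h1
      · exfalso
        have h2 : j = k := le_antisymm hle h1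
        apply hrange s hs
        apply Subgroup.eq_top_of_card_eq
        rw [hj, hk, h2]
    · rw [FXC_card_st, hj]
  -- the subgroup of the values
  let I : AddSubgroup ℂ :=
    { carrier := {w | IntAt M ((p : ℂ) ^ (k - 1) * w)}
      zero_mem' := by
        show IntAt M ((p : ℂ) ^ (k - 1) * 0)
        rw [mul_zero]
        exact IntAt.zero hS
      add_mem' := by
        intro x y hx hy
        show IntAt M ((p : ℂ) ^ (k - 1) * (x + y))
        rw [mul_add]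
        exact IntAt.add hS hx hy
      neg_mem' := by
        intro x hx
        show IntAt M ((p : ℂ) ^ (k - 1) * (-x))
        rw [mul_neg]
        exact IntAt.neg hx }
  have hpC : (p : ℂ) ≠ 0 := hS.p_ne
  obtain ⟨w, hwI, hw⟩ := hODV p hp (G × P) (FXC_X g (p ^ a)) (FXC_act g (p ^ a) P hPg) I
    (fun x => h x) (by
      intro n x
      show h ((FXC_act g (p ^ a) P hPg n x : FXC_X g (p ^ a)) : G) = h x
      rw [FXC_act_apply, hcl]
      exact hPh n.2 n.2.2 x) (by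
      intro x
      obtain ⟨j, hjk, hj⟩ := hstab x.1 x.2
      obtain ⟨w₀, hw₀, hhx⟩ := hdiv x.1
      have hcard : Nat.card {n : G × P // FXC_act g (p ^ a) P hPg n x = x} =
          Nat.card (FXC_st P x.1) := by
        apply Nat.card_congr
        refine Equiv.subtypeEquivRight ?_
        intro n
        rw [FXC_mem_st, ← FXC_act_apply g (p ^ a) P hPg n x]
        exact Subtype.ext_iff
      have hcpos : Nat.card (Subgroup.centralizer ({x.1} : Set G)) ≠ 0 := Nat.card_pos.ne'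
      have hpp : pp p {n : G × P // FXC_act g (p ^ a) P hPg n x = x} =
          p ^ j * pp p (Subgroup.centralizer ({x.1} : Set G)) := by
        unfold pp
        rw [hcard, hj, padicValNat.mul (pow_ne_zero _ hp.ne_zero) hcpos, padicValNat.prime_pow,
          pow_add]
      refine ⟨w₀ / (p : ℂ) ^ j, ?_, ?_⟩
      · show IntAt M ((p : ℂ) ^ (k - 1) * (w₀ / (p : ℂ) ^ j))
        have e : (p : ℂ) ^ (k - 1) * (w₀ / (p : ℂ) ^ j) = ((p ^ (k - 1 - j) : ℕ) : ℂ) * w₀ := by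
          have e1 : (p : ℂ) ^ (k - 1) = (p : ℂ) ^ (k - 1 - j) * (p : ℂ) ^ j := by
            rw [← pow_add]
            congr 1
            omega
          push_cast
          rw [e1]
          field_simp
        rw [e]
        exact IntAt.mul hS (IntAt.natCast hS _) hw₀
      · show h x = _
        rw [hhx, hpp]
        push_cast
        field_simp)
  refine ⟨(p : ℂ) * ((p : ℂ) ^ (k - 1) * w), InM.mul_right hS (InM.prime_mem hS) hwI, ?_⟩
  rw [sub_zero]
  have hppN : pp p (G × P) = pp p G * p ^ k := by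
    unfold pp
    rw [Nat.card_prod, hk, padicValNat.mul hn0 (pow_ne_zero _ hp.ne_zero), padicValNat.prime_pow,
      pow_add]
  have hw' : ∑ᶠ x : FXC_X g (p ^ a), h x = (pp p (G × P) : ℂ) * w := hw
  rw [hw', hppN]
  push_cast
  have e2 : (p : ℂ) ^ k = (p : ℂ) * (p : ℂ) ^ (k - 1) := by
    rw [← pow_succ']
    congr 1
    omega
  rw [e2]
  ring

end Pool.Agent.OB
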